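import Pool.Agent.FKL.Defs

/-!
# The colourings after deleting an edge between two parts
-/

set_option autoImplicit false

namespace Pool.Agent.FKL

open SimpleGraph

/-- The colouring of a part with certificate in which only `X t j` has the colour `γ`. -/
def sp {m s : ℕ} {K : Type} (α β γ : K) (h : Fin m → K) (t j : Fin (2 * s + 1)) : Loc m s → K
  | .X r c => if r = t then (if c = j then γ else β) else α
  | .a => α
  | .b => β
  | .O => γ
  | .S r => if r = t then α else β
  | .T c => if c = j then β else γ
  | .U r => if r = t then β else if (r.val < t.val ↔ r.val % 2 = 0) then α else γ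
  | .W c => if c = j then γ else if (c.val < j.val ↔ c.val % 2 = 0) then α else β
  | .H l => h l

/-- The colouring of a part without certificate. -/
def pl {m s : ℕ} {K : Type} (γ η σ μ : K) : Loc m s → K
  | .X _ _ => γ
  | .a => γ
  | .b => γ
  | .O => γ
  | .S _ => σ
  | .T _ => σ
  | .U r => if r.val % 2 = 0 then γ else μ
  | .W c => if c.val % 2 = 0 then γ else μ
  | .H _ => η

theorem sp_part {m s : ℕ} {K : Type} (α β γ : K) (h : Fin m → K) (t j : Fin (2 * s + 1))
    (x : Loc m s) (hx : part x) :
    sp α β γ h t j x = α ∨ sp α β γ h t j x = β ∨ (sp α β γ h t j x = γ ∧ x = Loc.X t j) := by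
  cases x with
  | X r c =>
    by_cases hr : r = t
    · by_cases hc : c = j
      · right; right
        subst hr; subst hc
        simp [sp]
      · right; left
        simp [sp, hr, hc]
    · left
      simp [sp, hr]
  | a => left; rfl
  | b => right; left; rfl
  | S _ => exact hx.elim
  | T _ => exact hx.elim
  | U _ => exact hx.elim
  | W _ => exact hx.elim
  | H _ => exact hx.elim
  | O => exact hx.elim

theorem pl_part {m s : ℕ} {K : Type} (γ η σ μ : K) (x : Loc m s) (hx : part x) :
    pl γ η σ μ x = γ := by
  cases x with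
  | X _ _ => rfl
  | a => rfl
  | b => rfl
  | S _ => exact hx.elim
  | T _ => exact hx.elim
  | U _ => exact hx.elim
  | W _ => exact hx.elim
  | H _ => exact hx.elim
  | O => exact hx.elim

theorem sp_valid {m s : ℕ} {K : Type} (α β γ : K) (h : Fin m → K) (t j : Fin (2 * s + 1))
    (hab : α ≠ β) (hac : α ≠ γ) (hbc : β ≠ γ) (ha : ∀ l, h l ≠ α) (hb : ∀ l, h l ≠ β)
    (hc : ∀ l, h l ≠ γ) (x y : Loc m s) (hxy : locRel x y) :
    sp α β γ h t j x ≠ sp α β γ h t j y := by
  have hba := hab.symm
  have hca := hac.symm
  have hcb := hbc.symm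
  have ha' : ∀ l, α ≠ h l := fun l => (ha l).symm
  have hb' : ∀ l, β ≠ h l := fun l => (hb l).symm
  have hc' : ∀ l, γ ≠ h l := fun l => (hc l).symm
  cases x <;> cases y <;> simp only [locRel] at hxy
  case X.S r c r' =>
    subst hxy
    simp only [sp]
    split_ifs <;> assumption
  case X.T r c c' =>
    subst hxy
    simp only [sp]
    split_ifs <;> assumption
  case S.U r r' =>
    subst hxy
    simp only [sp]
    split_ifs <;> assumption
  case T.W c c' =>
    subst hxy
    simp only [sp]
    split_ifs <;> assumption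
  case U.U r r' =>
    simp only [sp]
    by_cases h1 : r = t
    · have h2 : r' ≠ t := by
        intro h2
        rw [h1, h2] at hxy
        omega
      simp only [h1, h2, if_true, if_false]
      split_ifs <;> assumption
    · by_cases h2 : r' = t
      · simp only [h1, h2, if_true, if_false]
        split_ifs <;> assumption
      · have h1' : r.val ≠ t.val := fun e => h1 (Fin.ext e)
        have h2' : r'.val ≠ t.val := fun e => h2 (Fin.ext e)
        have h3 : (r'.val < t.val ↔ r'.val % 2 = 0) ↔ ¬ (r.val < t.val ↔ r.val % 2 = 0) := by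
          rw [← hxy]
          omega
        simp only [h1, h2, if_false, h3]
        split_ifs <;> assumption
  case W.W r r' =>
    simp only [sp]
    by_cases h1 : r = j
    · have h2 : r' ≠ j := by
        intro h2
        rw [h1, h2] at hxy
        omega
      simp only [h1, h2, if_true, if_false]
      split_ifs <;> assumption
    · by_cases h2 : r' = j
      · simp only [h1, h2, if_true, if_false]
        split_ifs <;> assumption
      · have h1' : r.val ≠ j.val := fun e => h1 (Fin.ext e)
        have h2' : r'.val ≠ j.val := fun e => h2 (Fin.ext e)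
        have h3 : (r'.val < j.val ↔ r'.val % 2 = 0) ↔ ¬ (r.val < j.val ↔ r.val % 2 = 0) := by
          rw [← hxy]
          omega
        simp only [h1, h2, if_false, h3]
        split_ifs <;> assumption
  case S.H r l =>
    simp only [sp]
    split_ifs <;> first | exact ha' l | exact hb' l | exact hc' l
  case T.H r l =>
    simp only [sp]
    split_ifs <;> first | exact ha' l | exact hb' l | exact hc' l
  case U.H r l =>
    simp only [sp]
    split_ifs <;> first | exact ha' l | exact hb' l | exact hc' l
  case W.H r l =>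
    simp only [sp]
    split_ifs <;> first | exact ha' l | exact hb' l | exact hc' l
  case S.O r =>
    simp only [sp]
    split_ifs <;> assumption
  case T.a r =>
    simp only [sp]
    split_ifs <;> assumption

theorem pl_valid {m s : ℕ} {K : Type} (γ η σ μ : K) (h1 : γ ≠ η) (h2 : γ ≠ σ) (h3 : γ ≠ μ)
    (h4 : η ≠ σ) (h5 : η ≠ μ) (h6 : σ ≠ μ) (x y : Loc m s) (hxy : locRel x y) :
    pl γ η σ μ x ≠ pl γ η σ μ y := by
  have h1' := h1.symm
  have h2' := h2.symm
  have h3' := h3.symm
  have h4' := h4.symm
  have h5' := h5.symm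
  have h6' := h6.symm
  cases x <;> cases y <;> simp only [locRel] at hxy <;> simp only [pl]
  case X.S r c r' => assumption
  case X.T r c r' => assumption
  case S.U r r' => split_ifs <;> assumption
  case T.W r r' => split_ifs <;> assumption
  case U.U r r' =>
    rw [← hxy]
    split_ifs <;> first | assumption | omega
  case W.W r r' =>
    rw [← hxy]
    split_ifs <;> first | assumption | omega
  case S.H r l => assumption
  case T.H r l => assumption
  case U.H r l => split_ifs <;> assumption
  case W.H r l => split_ifs <;> assumption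
  case S.O r => assumption
  case T.a r => assumption

theorem sp_cert {m s : ℕ} (hs : 1 ≤ s) (α β γ : Fin (m + 3)) (h : Fin m → Fin (m + 3))
    (t j : Fin (2 * s + 1))
    (hab : α ≠ β) (hac : α ≠ γ) (hbc : β ≠ γ) (ha : ∀ l, h l ≠ α) (hb : ∀ l, h l ≠ β)
    (hc : ∀ l, h l ≠ γ) (hi : Function.Injective h) :
    Cert (fun x : Fin m ⊕ Fin 7 => sp α β γ h t j (emb x)) := by
  have hba := hab.symm
  have hca := hac.symm
  have hcb := hbc.symm
  refine ⟨?_, ?_, ?_⟩
  · rintro (l | u) (l' | u') he
    · simp only [Sum.elim_inl, emb, sp] at he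
      rw [hi he]
    · exfalso
      fin_cases u'
      · exact hc l he
      · exact ha l he
      · exact hb l he
    · exfalso
      fin_cases u
      · exact hc l' he.symm
      · exact ha l' he.symm
      · exact hb l' he.symm
    · fin_cases u <;> fin_cases u'
      · rfl
      · exact (hca he).elim
      · exact (hcb he).elim
      · exact (hac he).elim
      · rfl
      · exact (hab he).elim
      · exact (hbc he).elim
      · exact (hba he).elim
      · rfl
  · show (if (0 : Fin (2 * s + 1)) = t then β else
        if ((0 : Fin (2 * s + 1)).val < t.val ↔ (0 : Fin (2 * s + 1)).val % 2 = 0) then α else γ) ≠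
      (if Fin.last (2 * s) = t then β else
        if ((Fin.last (2 * s)).val < t.val ↔ (Fin.last (2 * s)).val % 2 = 0) then α else γ)
    by_cases h1 : (0 : Fin (2 * s + 1)) = t
    · have h2 : Fin.last (2 * s) ≠ t := by
        intro h2
        rw [← h1] at h2
        have := congrArg Fin.val h2
        simp at this
        omega
      simp only [h1, h2, if_true, if_false]
      split_ifs <;> assumption
    · have h1' : t.val ≠ 0 := fun e => h1 (Fin.ext (by simp [e]))
      by_cases h2 : Fin.last (2 * s) = t
      · simp only [h1, h2, if_true, if_false]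
        split_ifs <;> assumption
      · have h3 : ((0 : Fin (2 * s + 1)).val < t.val ↔ (0 : Fin (2 * s + 1)).val % 2 = 0) := by
          rw [show (0 : Fin (2 * s + 1)).val = 0 from rfl]
          omega
        have h4 : ¬ ((Fin.last (2 * s)).val < t.val ↔ (Fin.last (2 * s)).val % 2 = 0) := by
          have := t.isLt
          rw [show (Fin.last (2 * s)).val = 2 * s from rfl]
          omega
        rw [if_neg h1, if_neg h2, if_pos h3, if_neg h4]
        exact hac
  · show (if (0 : Fin (2 * s + 1)) = j then γ else
        if ((0 : Fin (2 * s + 1)).val < j.val ↔ (0 : Fin (2 * s + 1)).val % 2 = 0) then α else β) ≠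
      (if Fin.last (2 * s) = j then γ else
        if ((Fin.last (2 * s)).val < j.val ↔ (Fin.last (2 * s)).val % 2 = 0) then α else β)
    by_cases h1 : (0 : Fin (2 * s + 1)) = j
    · have h2 : Fin.last (2 * s) ≠ j := by
        intro h2
        rw [← h1] at h2
        have := congrArg Fin.val h2
        simp at this
        omega
      simp only [h1, h2, if_true, if_false]
      split_ifs <;> assumption
    · have h1' : j.val ≠ 0 := fun e => h1 (Fin.ext (by simp [e]))
      by_cases h2 : Fin.last (2 * s) = j
      · simp only [h1, h2, if_true, if_false]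
        split_ifs <;> assumption
      · have h3 : ((0 : Fin (2 * s + 1)).val < j.val ↔ (0 : Fin (2 * s + 1)).val % 2 = 0) := by
          rw [show (0 : Fin (2 * s + 1)).val = 0 from rfl]
          omega
        have h4 : ¬ ((Fin.last (2 * s)).val < j.val ↔ (Fin.last (2 * s)).val % 2 = 0) := by
          have := j.isLt
          rw [show (Fin.last (2 * s)).val = 2 * s from rfl]
          omega
        rw [if_neg h1, if_neg h2, if_pos h3, if_neg h4]
        exact hab

/-- The main colour of a part. -/
def mc {m : ℕ} (l : Fin m) : Fin (m + 3) := ⟨l.val, by omega⟩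

theorem mc_inj {m : ℕ} {l l' : Fin m} (h : mc l = mc l') : l = l' := by
  have := congrArg Fin.val h
  exact Fin.ext this

/-- The three further colours. -/
def xc (m : ℕ) (r : Fin 3) : Fin (m + 3) := ⟨m + r.val, by omega⟩

theorem xc_inj {m : ℕ} {r r' : Fin 3} (h : xc m r = xc m r') : r = r' := by
  have := congrArg Fin.val h
  simp only [xc] at this
  exact Fin.ext (by omega)

theorem mc_ne_xc {m : ℕ} (l : Fin m) (r : Fin 3) : mc l ≠ xc m r := by
  intro h
  have := congrArg Fin.val h
  simp only [mc, xc] at this
  have := l.isLt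
  omega

theorem xc_ne_mc {m : ℕ} (l : Fin m) (r : Fin 3) : xc m r ≠ mc l := (mc_ne_xc l r).symm

theorem xc_ne {m : ℕ} {r r' : Fin 3} (h : r ≠ r') : xc m r ≠ xc m r' := fun e => h (xc_inj e)

/-- The hub colours of a part with certificate. -/
def hc {m : ℕ} (i : Fin m) (r : Fin 3) (l : Fin m) : Fin (m + 3) := if l = i then xc m r else mc l

theorem hc_inj {m : ℕ} (i : Fin m) (r : Fin 3) : Function.Injective (hc i r) := by
  intro l l' h
  simp only [hc] at h
  split_ifs at h with h1 h2 h2
  · rw [h1, h2]
  · exact (xc_ne_mc _ _ h).elim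
  · exact (mc_ne_xc _ _ h).elim
  · exact mc_inj h

theorem hc_ne_mc {m : ℕ} (i : Fin m) (r : Fin 3) (l : Fin m) : hc i r l ≠ mc i := by
  simp only [hc]
  split_ifs with h1
  · exact xc_ne_mc _ _
  · exact fun e => h1 (mc_inj e)

theorem hc_ne_xc {m : ℕ} (i : Fin m) (r r' : Fin 3) (h : r ≠ r') (l : Fin m) :
    hc i r l ≠ xc m r' := by
  simp only [hc]
  split_ifs with h1
  · exact xc_ne h
  · exact mc_ne_xc _ _

/-- The colouring after deleting the edge between `(i, X t j)` and `(i', X t' j')`. -/
def col {m s : ℕ} (i i' : Fin m) (t j t' j' : Fin (2 * s + 1)) (v : Fin m × Loc m s) :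
    Fin (m + 3) :=
  if v.1 = i then sp (mc i) (xc m 0) (xc m 2) (hc i 1) t j v.2
  else if v.1 = i' then sp (mc i') (xc m 1) (xc m 2) (hc i' 0) t' j' v.2
  else pl (mc v.1) (xc m 0) (xc m 1) (xc m 2) v.2

theorem col_valid {m s : ℕ} (i i' : Fin m) (hii : i ≠ i') (t j t' j' : Fin (2 * s + 1))
    (u v : Fin m × Loc m s) (h : rel u v)
    (hne : s(u, v) ≠ s((i, Loc.X t j), (i', Loc.X t' j'))) :
    col i i' t j t' j' u ≠ col i i' t j t' j' v := by
  have h01 : (0 : Fin 3) ≠ 1 := by decide
  have h02 : (0 : Fin 3) ≠ 2 := by decide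
  have h12 : (1 : Fin 3) ≠ 2 := by decide
  obtain ⟨l, x⟩ := u
  obtain ⟨l', y⟩ := v
  rcases h with ⟨h1, h2⟩ | ⟨h1, h2, h3⟩
  · simp only at h1 h2
    subst h1
    simp only [col]
    split_ifs with h3 h4
    · exact sp_valid _ _ _ _ _ _ (mc_ne_xc _ _) (mc_ne_xc _ _) (xc_ne h02) (hc_ne_mc _ _)
        (hc_ne_xc _ _ _ h01.symm) (hc_ne_xc _ _ _ h12) _ _ h2
    · exact sp_valid _ _ _ _ _ _ (mc_ne_xc _ _) (mc_ne_xc _ _) (xc_ne h12) (hc_ne_mc _ _)
        (hc_ne_xc _ _ _ h01) (hc_ne_xc _ _ _ h02) _ _ h2
    · exact pl_valid _ _ _ _ (mc_ne_xc _ _) (mc_ne_xc _ _) (mc_ne_xc _ _) (xc_ne h01)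
        (xc_ne h02) (xc_ne h12) _ _ h2
  · simp only at h1 h2 h3
    have hmm : ∀ {a b : Fin m}, a ≠ b → mc a ≠ mc b := fun hab e => hab (mc_inj e)
    by_cases hl : l = i
    · subst hl
      have hl' : ¬ l' = l := fun e => h1 e.symm
      by_cases hl2 : l' = i'
      · subst hl2
        simp only [col, if_true, if_neg hl']
        rcases sp_part (mc l) (xc m 0) (xc m 2) (hc l 1) t j x h2 with hx | hx | ⟨hx, hx'⟩ <;>
        rcases sp_part (mc l') (xc m 1) (xc m 2) (hc l' 0) t' j' y h3 with hy | hy | ⟨hy, hy'⟩ <;>
        rw [hx, hy]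
        · exact hmm h1
        · exact mc_ne_xc _ _
        · exact mc_ne_xc _ _
        · exact xc_ne_mc _ _
        · exact xc_ne h01
        · exact xc_ne h02
        · exact xc_ne_mc _ _
        · exact xc_ne h12.symm
        · exact (hne (by rw [hx', hy'])).elim
      · simp only [col, if_true, if_neg hl', if_neg hl2]
        rw [pl_part _ _ _ _ y h3]
        rcases sp_part (mc l) (xc m 0) (xc m 2) (hc l 1) t j x h2 with hx | hx | ⟨hx, hx'⟩ <;>
          rw [hx]
        · exact hmm h1
        · exact xc_ne_mc _ _
        · exact xc_ne_mc _ _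
    · by_cases hl2 : l = i'
      · subst hl2
        have hl' : ¬ l' = l := fun e => h1 e.symm
        by_cases hl3 : l' = i
        · subst hl3
          simp only [col, if_true, if_neg hl]
          rcases sp_part (mc l') (xc m 0) (xc m 2) (hc l' 1) t j y h3 with hx | hx | ⟨hx, hx'⟩ <;>
          rcases sp_part (mc l) (xc m 1) (xc m 2) (hc l 0) t' j' x h2 with hy | hy | ⟨hy, hy'⟩ <;>
          rw [hx, hy]
          · exact hmm h1
          · exact xc_ne_mc _ _
          · exact xc_ne_mc _ _
          · exact mc_ne_xc _ _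
          · exact xc_ne h01.symm
          · exact xc_ne h02.symm
          · exact mc_ne_xc _ _
          · exact xc_ne h12
          · exact (hne (by rw [hx', hy', Sym2.eq_swap])).elim
        · simp only [col, if_true, if_neg hl, if_neg hl3, if_neg hl']
          rw [pl_part _ _ _ _ y h3]
          rcases sp_part (mc l) (xc m 1) (xc m 2) (hc l 0) t' j' x h2 with hx | hx | ⟨hx, hx'⟩ <;>
            rw [hx]
          · exact hmm h1
          · exact xc_ne_mc _ _
          · exact xc_ne_mc _ _
      · simp only [col, if_neg hl, if_neg hl2]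
        rw [pl_part _ _ _ _ x h2]
        by_cases hl3 : l' = i
        · subst hl3
          simp only [if_true]
          rcases sp_part (mc l') (xc m 0) (xc m 2) (hc l' 1) t j y h3 with hx | hx | ⟨hx, hx'⟩ <;>
            rw [hx]
          · exact hmm h1
          · exact mc_ne_xc _ _
          · exact mc_ne_xc _ _
        · by_cases hl4 : l' = i'
          · subst hl4
            simp only [if_true, if_neg hl3]
            rcases sp_part (mc l') (xc m 1) (xc m 2) (hc l' 0) t' j' y h3 with
              hx | hx | ⟨hx, hx'⟩ <;> rw [hx]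
            · exact hmm h1
            · exact mc_ne_xc _ _
            · exact mc_ne_xc _ _
          · simp only [if_neg hl3, if_neg hl4]
            rw [pl_part _ _ _ _ y h3]
            exact hmm h1

theorem cross (m s : ℕ) (hs : 1 ≤ s) (i i' : Fin m) (hii : i ≠ i') (t j t' j' : Fin (2 * s + 1)) :
    FC14.Accepts (m + 3) ((G m s).deleteEdges {s((i, Loc.X t j), (i', Loc.X t' j'))}) (τ m s)
      Acc := by
  have h01 : (0 : Fin 3) ≠ 1 := by decide
  have h02 : (0 : Fin 3) ≠ 2 := by decide
  have h12 : (1 : Fin 3) ≠ 2 := by decide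
  refine ⟨Coloring.mk (col i i' t j t' j') ?_, i, i', hii, ?_, ?_⟩
  · intro u v huv
    rw [SimpleGraph.deleteEdges_adj] at huv
    obtain ⟨h1, h2⟩ := huv
    rw [Set.mem_singleton_iff] at h2
    rw [G, SimpleGraph.fromRel_adj] at h1
    obtain ⟨h3, h4 | h4⟩ := h1
    · exact col_valid i i' hii t j t' j' u v h4 h2
    · exact (col_valid i i' hii t j t' j' v u h4 (by rw [Sym2.eq_swap]; exact h2)).symm
  · have h := sp_cert hs (mc i) (xc m 0) (xc m 2) (hc i 1) t j (mc_ne_xc _ _) (mc_ne_xc _ _)
      (xc_ne h02) (hc_ne_mc _ _) (hc_ne_xc _ _ _ h01.symm) (hc_ne_xc _ _ _ h12) (hc_inj _ _)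
    have he : (fun x : Fin m ⊕ Fin 7 => col i i' t j t' j' (τ m s (i, x))) =
        fun x => sp (mc i) (xc m 0) (xc m 2) (hc i 1) t j (emb x) := by
      funext x
      simp only [col, τ, if_true]
    show Cert (fun x : Fin m ⊕ Fin 7 => col i i' t j t' j' (τ m s (i, x)))
    rw [he]
    exact h
  · have h := sp_cert hs (mc i') (xc m 1) (xc m 2) (hc i' 0) t' j' (mc_ne_xc _ _) (mc_ne_xc _ _)
      (xc_ne h12) (hc_ne_mc _ _) (hc_ne_xc _ _ _ h01) (hc_ne_xc _ _ _ h02) (hc_inj _ _)
    have he : (fun x : Fin m ⊕ Fin 7 => col i i' t j t' j' (τ m s (i', x))) =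
        fun x => sp (mc i') (xc m 1) (xc m 2) (hc i' 0) t' j' (emb x) := by
      funext x
      simp only [col, τ, if_true, if_neg hii.symm]
    show Cert (fun x : Fin m ⊕ Fin 7 => col i i' t j t' j' (τ m s (i', x)))
    rw [he]
    exact h

end Pool.Agent.FKL
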