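import Pool.Agent.FKL.Defs

/-!
# No colouring with `m + 3` colours has two certified parts
-/

set_option autoImplicit false

namespace Pool.Agent.FKL

open SimpleGraph

/-- a path of odd order, coloured alternately by two colours, has ends of the same colour -/
lemma sound_alt {γ : Type*} {s : ℕ} (g : Fin (2 * s + 1) → γ) {α β : γ}
    (h2 : ∀ i, g i = α ∨ g i = β)
    (hne : ∀ i j : Fin (2 * s + 1), i.val + 1 = j.val → g i ≠ g j) :
    g 0 = g (Fin.last (2 * s)) := by
  have key : ∀ n : ℕ, ∀ hn : n < 2 * s + 1,
      (n % 2 = 0 → g ⟨n, hn⟩ = g 0) ∧ (n % 2 = 1 → g ⟨n, hn⟩ ≠ g 0) := by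
    intro n
    induction n with
    | zero => exact fun hn => ⟨fun _ => rfl, fun h => absurd h (by norm_num)⟩
    | succ n ih =>
      intro hn
      have ih' := ih (by omega)
      have hstep : g ⟨n, by omega⟩ ≠ g ⟨n + 1, hn⟩ := hne _ _ rfl
      constructor
      · intro hmod
        have h1 := ih'.2 (by omega)
        have a1 := h2 0
        have a2 := h2 ⟨n, by omega⟩
        have a3 := h2 ⟨n + 1, hn⟩
        rcases a1 with a1 | a1 <;> rcases a2 with a2 | a2 <;> rcases a3 with a3 | a3 <;>
          rw [a1, a2] at h1 <;> rw [a2, a3] at hstep <;> rw [a1, a3] <;>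
          first
            | exact absurd rfl h1
            | exact absurd rfl hstep
      · intro hmod
        have h1 := ih'.1 (by omega)
        rw [← h1]
        exact hstep.symm
  exact ((key (2 * s) (by omega)).1 (by omega)).symm

/-- A certified part uses three colours. -/
theorem local_sound {m s : ℕ} (φ : Loc m s → Fin (m + 3))
    (hφ : ∀ u v, locRel u v → φ u ≠ φ v) (h : Cert (fun t => φ (emb t))) :
    φ .a ≠ φ .b ∧ ∃ t j, φ (.X t j) ≠ φ .a ∧ φ (.X t j) ≠ φ .b := by
  obtain ⟨hinj, hU, hW⟩ := h
  have hsurj : ∀ x : Fin (m + 3), (∃ l, φ (.H l) = x) ∨ φ .O = x ∨ φ .a = x ∨ φ .b = x := by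
    intro x
    have hbij := (Fintype.bijective_iff_injective_and_card _).2
      ⟨hinj, by simp only [Fintype.card_sum, Fintype.card_fin]⟩
    obtain ⟨y, hy⟩ := hbij.2 x
    rcases y with l | y
    · exact Or.inl ⟨l, hy⟩
    · change (![φ .O, φ .a, φ .b] : Fin 3 → Fin (m + 3)) y = x at hy
      fin_cases y
      · exact Or.inr (Or.inl hy)
      · exact Or.inr (Or.inr (Or.inl hy))
      · exact Or.inr (Or.inr (Or.inr hy))
  have hab : φ .a ≠ φ .b := by
    intro hab
    have h1 : (Sum.inr 1 : Fin m ⊕ Fin 3) = Sum.inr 2 := hinj hab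
    simp at h1
  have hU' : φ (.U 0) ≠ φ (.U (Fin.last (2 * s))) := hU
  have hW' : φ (.W 0) ≠ φ (.W (Fin.last (2 * s))) := hW
  -- some `S t` has the colour of `a`
  have hS : ∃ r, φ (.S r) = φ .a := by
    by_contra hno
    push Not at hno
    have hSb : ∀ r, φ (.S r) = φ .b := by
      intro r
      rcases hsurj (φ (.S r)) with ⟨l, hl⟩ | hl | hl | hl
      · exact absurd hl.symm (hφ (.S r) (.H l) trivial)
      · exact absurd hl.symm (hφ (.S r) .O trivial)
      · exact absurd hl.symm (hno r)
      · exact hl.symm
    refine hU' (sound_alt (fun i => φ (.U i)) (α := φ .O) (β := φ .a) ?_ ?_)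
    · intro i
      rcases hsurj (φ (.U i)) with ⟨l, hl⟩ | hl | hl | hl
      · exact absurd hl.symm (hφ (.U i) (.H l) trivial)
      · exact Or.inl hl.symm
      · exact Or.inr hl.symm
      · exact absurd ((hSb i).trans hl) (hφ (.S i) (.U i) rfl)
    · intro i j hij
      exact hφ (.U i) (.U j) hij
  have hT : ∃ c, φ (.T c) = φ .b := by
    by_contra hno
    push Not at hno
    have hTO : ∀ r, φ (.T r) = φ .O := by
      intro r
      rcases hsurj (φ (.T r)) with ⟨l, hl⟩ | hl | hl | hl
      · exact absurd hl.symm (hφ (.T r) (.H l) trivial)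
      · exact hl.symm
      · exact absurd hl.symm (hφ (.T r) .a trivial)
      · exact absurd hl.symm (hno r)
    refine hW' (sound_alt (fun i => φ (.W i)) (α := φ .a) (β := φ .b) ?_ ?_)
    · intro i
      rcases hsurj (φ (.W i)) with ⟨l, hl⟩ | hl | hl | hl
      · exact absurd hl.symm (hφ (.W i) (.H l) trivial)
      · exact absurd ((hTO i).trans hl) (hφ (.T i) (.W i) rfl)
      · exact Or.inl hl.symm
      · exact Or.inr hl.symm
    · intro i j hij
      exact hφ (.W i) (.W j) hij
  obtain ⟨r, hr⟩ := hS
  obtain ⟨c, hc⟩ := hT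
  refine ⟨hab, r, c, ?_, ?_⟩
  · rw [← hr]
    exact hφ (.X r c) (.S r) rfl
  · rw [← hc]
    exact hφ (.X r c) (.T c) rfl

lemma locRel_irrefl {m s : ℕ} (u : Loc m s) : ¬ locRel u u := by
  cases u <;> simp [locRel]

lemma adj_of_rel {m s : ℕ} {x y : Fin m × Loc m s} (h : rel x y) : (G m s).Adj x y := by
  rw [G, SimpleGraph.fromRel_adj]
  refine ⟨?_, Or.inl h⟩
  rintro rfl
  rcases h with h | h
  · exact locRel_irrefl _ h.2
  · exact h.1 rfl

/-- No colouring is accepted. -/
theorem sound (m s : ℕ) : ¬ FC14.Accepts (m + 3) (G m s) (τ m s) Acc := by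
  rintro ⟨φ, i, i', hii, hc, hc'⟩
  have hloc : ∀ (l : Fin m) (u v : Loc m s), locRel u v → φ (l, u) ≠ φ (l, v) :=
    fun l u v huv => φ.valid (adj_of_rel (Or.inl ⟨rfl, huv⟩))
  have hcross : ∀ x y : Fin m × Loc m s, x.1 ≠ y.1 → part x.2 → part y.2 → φ x ≠ φ y :=
    fun x y h1 h2 h3 => φ.valid (adj_of_rel (Or.inr ⟨h1, h2, h3⟩))
  obtain ⟨hab, t, j, h1, h2⟩ := local_sound (fun u => φ (i, u)) (hloc i) hc
  obtain ⟨hab', t', j', h1', h2'⟩ := local_sound (fun u => φ (i', u)) (hloc i') hc'
  -- `m + 4` different colours
  set V : Fin m ⊕ Fin 4 → Fin m × Loc m s := Sum.elim (fun l => (l, .a))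
    ![(i, .b), (i, .X t j), (i', .b), (i', .X t' j')] with hV
  have hinj : Function.Injective (fun x => φ (V x)) := by
    have key : ∀ x y, x ≠ y → φ (V x) ≠ φ (V y) := by
      have hpart : ∀ x, part (V x).2 := by
        intro x
        rcases x with l | x
        · trivial
        · fin_cases x <;> trivial
      intro x y hxy
      by_cases hne : (V x).1 = (V y).1
      · rcases x with l | x
        · rcases y with l' | y
          · have : l = l' := hne
            exact absurd (by rw [this]) hxy
          · have hl : l = (V (.inr y)).1 := hne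
            subst hl
            fin_cases y
            · exact hab
            · exact h1.symm
            · exact hab'
            · exact h1'.symm
        · rcases y with l' | y
          · have hl : (V (.inr x)).1 = l' := hne
            subst hl
            fin_cases x
            · exact hab.symm
            · exact h1
            · exact hab'.symm
            · exact h1'
          · fin_cases x <;> fin_cases y
            · exact absurd rfl hxy
            · exact h2.symm
            · exact absurd hne hii
            · exact absurd hne hii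
            · exact h2
            · exact absurd rfl hxy
            · exact absurd hne hii
            · exact absurd hne hii
            · exact absurd hne.symm hii
            · exact absurd hne.symm hii
            · exact absurd rfl hxy
            · exact h2'.symm
            · exact absurd hne.symm hii
            · exact absurd hne.symm hii
            · exact h2'
            · exact absurd rfl hxy
      · exact hcross _ _ hne (hpart x) (hpart y)
    intro x y hxy
    by_contra hne
    exact key x y hne hxy
  have hcard := Fintype.card_le_of_injective _ hinj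
  simp only [Fintype.card_sum, Fintype.card_fin] at hcard
  omega

end Pool.Agent.FKL
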