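import Pool.Agent.FKL.Low
import Pool.Agent.FKL.Sound
import Pool.Agent.FKL.Color

/-!
# The lower bound for all `k ≥ 6` and all large `n`, unconditional
-/

set_option autoImplicit false

namespace Pool.Agent.FKL

open SimpleGraph

/-- the bound for the special sizes -/
theorem special_all (m : ℕ) :
    ∃ C : ℕ, ∀ s, 1 ≤ s → ∀ n, m * (2 * s + 1) ^ 2 + 4 * m * (2 * s + 1) + C ≤ n →
      m * (m - 1) * ((2 * s + 1) ^ 2 - 1) ^ 2 ≤ 2 * FC14.F (m + 4) n := by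
  obtain ⟨C, hC⟩ := FC14.master (m + 3) (by omega) (X := Ter m) Acc acc_perm
  refine ⟨m * (m + 3) + C, fun s hs n hn => ?_⟩
  have hcard : Fintype.card (Fin m × Loc m s) =
      m * ((2 * s + 1) ^ 2 + 4 * (2 * s + 1) + (m + 3)) := by
    rw [Fintype.card_prod, Fintype.card_fin, card_Loc]
  have h1 := hC (Fin m × Loc m s) (G m s) (τ m s) (sound m s) n (by
    rw [hcard]
    have h2 : m * ((2 * s + 1) ^ 2 + 4 * (2 * s + 1) + (m + 3)) =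
        m * (2 * s + 1) ^ 2 + 4 * m * (2 * s + 1) + m * (m + 3) := by ring
    omega)
  refine le_trans (Nat.mul_le_mul_left _ (Nat.pow_le_pow_left (Nat.sub_le _ _) 2)) ?_
  exact (count m s (cross m s hs)).trans (Nat.mul_le_mul_left 2 h1)

/-- **The lower bound.** -/
theorem lower (k : ℕ) (hk : 6 ≤ k) :
    ∀ ε : ℝ, 0 < ε → ∃ n₀ : ℕ, ∀ n : ℕ, n₀ ≤ n →
      ((1 - 1 / ((k : ℝ) - 4)) / 2 - ε) * (n : ℝ) ^ 2 ≤ FC14.F k n := by
  obtain ⟨m, rfl⟩ : ∃ m, k = m + 4 := ⟨k - 4, by omega⟩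
  have hm : 0 < m := by omega
  have h3 : (((m + 4 : ℕ) : ℝ) - 4) = (m : ℝ) := by
    push_cast
    ring
  rw [h3]
  obtain ⟨C, hC⟩ := special_all m
  intro ε hε
  obtain ⟨n₀, h⟩ := FC14.asymp (FC14.F (m + 4)) m (4 * m) C (m * (m - 1)) hm hC ε hε
  refine ⟨n₀, fun n hn => ?_⟩
  have h1 := h n hn
  have hm0 : (0 : ℝ) < m := by exact_mod_cast hm
  have h2 : ((m * (m - 1) : ℕ) : ℝ) / (2 * (m : ℝ) ^ 2) = (1 - 1 / (m : ℝ)) / 2 := by
    rw [Nat.cast_mul, Nat.cast_sub hm]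
    push_cast
    field_simp
  rw [h2] at h1
  exact h1

/-- **The lower bound**, in the form of the existence of critical graphs. -/
theorem lower_exists (k : ℕ) (hk : 6 ≤ k) :
    ∀ ε : ℝ, 0 < ε → ∃ n₀ : ℕ, ∀ n : ℕ, n₀ ≤ n →
      ∃ G : SimpleGraph (Fin n), G.chromaticNumber = (k : ℕ∞) ∧
        (∀ e ∈ G.edgeSet, (G.deleteEdges {e}).chromaticNumber < (k : ℕ∞)) ∧
        (∀ v : Fin n, (G.induce ({v}ᶜ : Set (Fin n))).chromaticNumber < (k : ℕ∞)) ∧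
        ((1 - 1 / ((k : ℝ) - 4)) / 2 - ε) * (n : ℝ) ^ 2 ≤ (Nat.card G.edgeSet : ℝ) := by
  obtain ⟨q, rfl⟩ : ∃ q, k = q + 1 := ⟨k - 1, by omega⟩
  exact FC14.exists_of_F_bound q (by omega) _ (lower (q + 1) hk)

/-- The interface of `fk_lower`. -/
theorem fk_lower (k : ℕ) (hk : 6 ≤ k) : ∀ ε : ℝ, 0 < ε → ∃ n₀ : ℕ, ∀ n : ℕ, n₀ ≤ n →
    (1 / 2 * (1 - 1 / ((k : ℝ) - 4)) - ε) * (n : ℝ) ^ 2 ≤ FC14.F k n := by
  have h := lower k hk
  have e : (1 - 1 / ((k : ℝ) - 4)) / 2 = 1 / 2 * (1 - 1 / ((k : ℝ) - 4)) := by ring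
  rw [e] at h
  exact h

end Pool.Agent.FKL
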