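import Pool.Agent.FC14.Master

/-!
# Dense critical graphs with parts that use three colours: definitions

`m` parts, `q = m + 3` colours, `p = 2 s + 1`. Every part consists of the part vertices `X t j` (`p ^ 2`), `a`, `b`
and of its own vertices `S t`, `T j`, `U t`, `W j`, `H l` (`l < m`), `O`. Part vertices of different parts are
adjacent. Certificate of a part: `H l`, `O`, `a`, `b` have all different colours and the ends of the paths
`U` and `W` have different colours. Then some `S t` has the colour of `a` and some `T j` has the colour of `b`, so that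
`a`, `b`, `X t j` have three different colours.
-/

set_option autoImplicit false

namespace Pool.Agent.FKL

open SimpleGraph

/-- The vertices of one part. -/
inductive Loc (m s : ℕ) : Type
  | X : Fin (2 * s + 1) → Fin (2 * s + 1) → Loc m s
  | S : Fin (2 * s + 1) → Loc m s
  | T : Fin (2 * s + 1) → Loc m s
  | U : Fin (2 * s + 1) → Loc m s
  | W : Fin (2 * s + 1) → Loc m s
  | H : Fin m → Loc m s
  | O : Loc m s
  | a : Loc m s
  | b : Loc m s

/-- The part vertices. -/
def part {m s : ℕ} : Loc m s → Prop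
  | .X _ _ => True
  | .a => True
  | .b => True
  | _ => False

/-- The edges inside a part, in one direction. -/
def locRel {m s : ℕ} : Loc m s → Loc m s → Prop
  | .X t _, .S t' => t = t'
  | .X _ j, .T j' => j = j'
  | .S t, .U t' => t = t'
  | .T j, .W j' => j = j'
  | .U t, .U t' => t.val + 1 = t'.val
  | .W j, .W j' => j.val + 1 = j'.val
  | .S _, .H _ => True
  | .T _, .H _ => True
  | .U _, .H _ => True
  | .W _, .H _ => True
  | .S _, .O => True
  | .T _, .a => True
  | _, _ => False

/-- The edges, in one direction. -/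
def rel {m s : ℕ} (x y : Fin m × Loc m s) : Prop :=
  (x.1 = y.1 ∧ locRel x.2 y.2) ∨ (x.1 ≠ y.1 ∧ part x.2 ∧ part y.2)

/-- The graph. -/
def G (m s : ℕ) : SimpleGraph (Fin m × Loc m s) := SimpleGraph.fromRel rel

/-- The position of the terminals of one part. -/
def emb {m s : ℕ} : Fin m ⊕ Fin 7 → Loc m s
  | .inl l => .H l
  | .inr 0 => .O
  | .inr 1 => .a
  | .inr 2 => .b
  | .inr 3 => .U 0
  | .inr 4 => .U (Fin.last (2 * s))
  | .inr 5 => .W 0
  | .inr 6 => .W (Fin.last (2 * s))

/-- The terminals. -/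
abbrev Ter (m : ℕ) : Type := Fin m × (Fin m ⊕ Fin 7)

/-- The position of the terminals. -/
def τ (m s : ℕ) (x : Ter m) : Fin m × Loc m s := (x.1, emb x.2)

/-- The certificate. -/
def Cert {m : ℕ} (c : Fin m ⊕ Fin 7 → Fin (m + 3)) : Prop :=
  Function.Injective (Sum.elim (fun l => c (.inl l)) ![c (.inr 0), c (.inr 1), c (.inr 2)] :
    Fin m ⊕ Fin 3 → Fin (m + 3)) ∧
  c (.inr 3) ≠ c (.inr 4) ∧ c (.inr 5) ≠ c (.inr 6)

/-- Two parts have a certificate. -/
def Acc {m : ℕ} (c : Ter m → Fin (m + 3)) : Prop :=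
  ∃ i i' : Fin m, i ≠ i' ∧ Cert (fun t => c (i, t)) ∧ Cert (fun t => c (i', t))

theorem cert_perm {m : ℕ} (π : Equiv.Perm (Fin (m + 3))) (c : Fin m ⊕ Fin 7 → Fin (m + 3))
    (h : Cert c) : Cert (fun t => π (c t)) := by
  obtain ⟨h1, h2, h3⟩ := h
  refine ⟨?_, fun e => h2 (π.injective e), fun e => h3 (π.injective e)⟩
  have he : (Sum.elim (fun l => π (c (.inl l))) ![π (c (.inr 0)), π (c (.inr 1)), π (c (.inr 2))] :
      Fin m ⊕ Fin 3 → Fin (m + 3)) =
      fun x => π ((Sum.elim (fun l => c (.inl l)) ![c (.inr 0), c (.inr 1), c (.inr 2)] :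
        Fin m ⊕ Fin 3 → Fin (m + 3)) x) := by
    funext x
    rcases x with l | i
    · rfl
    · fin_cases i <;> rfl
  rw [he]
  exact π.injective.comp h1

theorem acc_perm {m : ℕ} (π : Equiv.Perm (Fin (m + 3))) (c : Ter m → Fin (m + 3))
    (h : Acc c) : Acc (fun x => π (c x)) := by
  obtain ⟨i, i', h1, h2, h3⟩ := h
  exact ⟨i, i', h1, cert_perm π _ h2, cert_perm π _ h3⟩

/-- The vertices of a part as a sum type. -/
def locEquiv (m s : ℕ) : Loc m s ≃
    (Fin (2 * s + 1) × Fin (2 * s + 1)) ⊕ (Fin 4 × Fin (2 * s + 1)) ⊕ (Fin m ⊕ Fin 3) where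
  toFun
    | .X r c => .inl (r, c)
    | .S r => .inr (.inl (0, r))
    | .T r => .inr (.inl (1, r))
    | .U r => .inr (.inl (2, r))
    | .W r => .inr (.inl (3, r))
    | .H l => .inr (.inr (.inl l))
    | .O => .inr (.inr (.inr 0))
    | .a => .inr (.inr (.inr 1))
    | .b => .inr (.inr (.inr 2))
  invFun
    | .inl (r, c) => .X r c
    | .inr (.inl (0, r)) => .S r
    | .inr (.inl (1, r)) => .T r
    | .inr (.inl (2, r)) => .U r
    | .inr (.inl (3, r)) => .W r
    | .inr (.inr (.inl l)) => .H l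
    | .inr (.inr (.inr 0)) => .O
    | .inr (.inr (.inr 1)) => .a
    | .inr (.inr (.inr 2)) => .b
  left_inv x := by
    cases x <;> rfl
  right_inv x := by
    rcases x with ⟨r, c⟩ | ⟨i, r⟩ | l | i
    · rfl
    · fin_cases i <;> rfl
    · rfl
    · fin_cases i <;> rfl

instance (m s : ℕ) : Finite (Loc m s) :=
  Finite.of_equiv _ (locEquiv m s).symm

noncomputable instance (m s : ℕ) : Fintype (Loc m s) := Fintype.ofFinite _

theorem card_Loc (m s : ℕ) :
    Fintype.card (Loc m s) = (2 * s + 1) ^ 2 + 4 * (2 * s + 1) + (m + 3) := by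
  rw [Fintype.card_congr (locEquiv m s)]
  simp only [Fintype.card_sum, Fintype.card_prod, Fintype.card_fin]
  ring

end Pool.Agent.FKL
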