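import Pool.Agent.FKL.Defs
import Pool.Agent.FC14.Exist

/-!
# The lower bound for all `k ≥ 6` and all large `n`

`count` counts the critical edges between part vertices `X t j` of different parts, `lower_aux` applies
`FC14.master` and `FC14.asymp`. Here `sound` (`G m s` has no accepted colouring) and `cross` (deleting an
edge between `X t j` and `X t' j'` of different parts gives an accepted colouring) are hypotheses.
-/

set_option autoImplicit false

namespace Pool.Agent.FKL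

open SimpleGraph

theorem count (m s : ℕ)
    (hcross : ∀ i i' : Fin m, i ≠ i' → ∀ t j t' j' : Fin (2 * s + 1),
      FC14.Accepts (m + 3)
        ((G m s).deleteEdges {s((i, Loc.X t j), (i', Loc.X t' j'))}) (τ m s) Acc) :
    m * (m - 1) * ((2 * s + 1) ^ 2) ^ 2 ≤
      2 * {e | e ∈ (G m s).edgeSet ∧
        FC14.Accepts (m + 3) ((G m s).deleteEdges {e}) (τ m s) Acc}.ncard := by
  classical
  set S : Set (Sym2 (Fin m × Loc m s)) := {e | e ∈ (G m s).edgeSet ∧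
    FC14.Accepts (m + 3) ((G m s).deleteEdges {e}) (τ m s) Acc} with hS
  have hedge : (SimpleGraph.fromEdgeSet S).edgeSet = S := by
    rw [SimpleGraph.edgeSet_fromEdgeSet, sdiff_eq_left, Set.disjoint_left]
    intro e he hd
    exact (G m s).not_isDiag_of_mem_edgeSet he.1 hd
  have hsum := FC14.compose_sum_adj (SimpleGraph.fromEdgeSet S)
  rw [hedge] at hsum
  rw [← hsum, Fintype.sum_prod_type]
  simp_rw [Fintype.sum_prod_type]
  refine le_trans (FC14.final_sum_offdiag m (((2 * s + 1) ^ 2) ^ 2) (fun _ => 0)) ?_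
  refine Finset.sum_le_sum fun i _ => ?_
  rw [Finset.sum_comm]
  refine Finset.sum_le_sum fun i' _ => ?_
  by_cases hii : i = i'
  · rw [if_pos hii]
    exact Nat.zero_le _
  · rw [if_neg hii]
    set f : Fin (2 * s + 1) × Fin (2 * s + 1) → Loc m s := fun p => Loc.X p.1 p.2 with hf
    have hinj : Function.Injective f := by
      rintro ⟨t, j⟩ ⟨t', j'⟩ h
      simp only [hf, Loc.X.injEq] at h
      exact Prod.ext h.1 h.2
    have hcard : (Finset.univ.image f).card = (2 * s + 1) ^ 2 := by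
      rw [Finset.card_image_of_injective _ hinj, Finset.card_univ, Fintype.card_prod,
        Fintype.card_fin, sq]
    have h1 : ((2 * s + 1) ^ 2) ^ 2 =
        ∑ _u ∈ Finset.univ.image f, ∑ _v ∈ Finset.univ.image f, 1 := by
      rw [Finset.sum_const, Finset.sum_const, hcard, smul_eq_mul, smul_eq_mul, mul_one, sq]
    rw [h1]
    refine le_trans (Finset.sum_le_sum fun u hu => ?_)
      (Finset.sum_le_sum_of_subset (Finset.subset_univ (Finset.univ.image f)))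
    refine le_trans (Finset.sum_le_sum fun v hv => ?_)
      (Finset.sum_le_sum_of_subset (Finset.subset_univ (Finset.univ.image f)))
    obtain ⟨p, _, rfl⟩ := Finset.mem_image.1 hu
    obtain ⟨p', _, rfl⟩ := Finset.mem_image.1 hv
    have hne : ((i, f p) : Fin m × Loc m s) ≠ (i', f p') := fun h => hii (congrArg Prod.fst h)
    rw [if_pos]
    rw [SimpleGraph.fromEdgeSet_adj]
    refine ⟨⟨?_, hcross i i' hii p.1 p.2 p'.1 p'.2⟩, hne⟩
    rw [SimpleGraph.mem_edgeSet, G, SimpleGraph.fromRel_adj]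
    exact ⟨hne, Or.inl (Or.inr ⟨hii, trivial, trivial⟩)⟩

/-- the bound for the special sizes -/
theorem special (m : ℕ)
    (hsound : ∀ s, ¬ FC14.Accepts (m + 3) (G m s) (τ m s) Acc)
    (hcross : ∀ s, ∀ i i' : Fin m, i ≠ i' → ∀ t j t' j' : Fin (2 * s + 1),
      FC14.Accepts (m + 3)
        ((G m s).deleteEdges {s((i, Loc.X t j), (i', Loc.X t' j'))}) (τ m s) Acc) :
    ∃ C : ℕ, ∀ s n : ℕ, m * (2 * s + 1) ^ 2 + 4 * m * (2 * s + 1) + C ≤ n →
      m * (m - 1) * ((2 * s + 1) ^ 2) ^ 2 ≤ 2 * FC14.F (m + 4) n := by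
  obtain ⟨C, hC⟩ := FC14.master (m + 3) (by omega) (X := Ter m) Acc acc_perm
  refine ⟨m * (m + 3) + C, fun s n hn => ?_⟩
  have hcard : Fintype.card (Fin m × Loc m s) =
      m * ((2 * s + 1) ^ 2 + 4 * (2 * s + 1) + (m + 3)) := by
    rw [Fintype.card_prod, Fintype.card_fin, card_Loc]
  have h1 := hC (Fin m × Loc m s) (G m s) (τ m s) (hsound s) n (by
    rw [hcard]
    have h2 : m * ((2 * s + 1) ^ 2 + 4 * (2 * s + 1) + (m + 3)) =
        m * (2 * s + 1) ^ 2 + 4 * m * (2 * s + 1) + m * (m + 3) := by ring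
    omega)
  exact (count m s (hcross s)).trans (Nat.mul_le_mul_left 2 h1)

theorem lower_aux (m : ℕ) (hm : 1 ≤ m)
    (hsound : ∀ s, ¬ FC14.Accepts (m + 3) (G m s) (τ m s) Acc)
    (hcross : ∀ s, ∀ i i' : Fin m, i ≠ i' → ∀ t j t' j' : Fin (2 * s + 1),
      FC14.Accepts (m + 3)
        ((G m s).deleteEdges {s((i, Loc.X t j), (i', Loc.X t' j'))}) (τ m s) Acc) :
    ∀ ε : ℝ, 0 < ε → ∃ n₀ : ℕ, ∀ n : ℕ, n₀ ≤ n →
      ((1 - 1 / (m : ℝ)) / 2 - ε) * (n : ℝ) ^ 2 ≤ FC14.F (m + 4) n := by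
  obtain ⟨C, hC⟩ := special m hsound hcross
  intro ε hε
  obtain ⟨n₀, h⟩ := FC14.asymp (FC14.F (m + 4)) m (4 * m) C (m * (m - 1)) hm (fun s _ n hn => by
    refine le_trans ?_ (hC s n hn)
    exact Nat.mul_le_mul_left _ (Nat.pow_le_pow_left (Nat.sub_le _ _) 2)) ε hε
  refine ⟨n₀, fun n hn => ?_⟩
  have h1 := h n hn
  have hm0 : (0 : ℝ) < m := by exact_mod_cast hm
  have h2 : ((m * (m - 1) : ℕ) : ℝ) / (2 * (m : ℝ) ^ 2) = (1 - 1 / (m : ℝ)) / 2 := by
    rw [Nat.cast_mul, Nat.cast_sub hm]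
    push_cast
    field_simp
  rw [h2] at h1
  exact h1

theorem lower_aux' (k : ℕ) (hk : 6 ≤ k)
    (hsound : ∀ m s, ¬ FC14.Accepts (m + 3) (G m s) (τ m s) Acc)
    (hcross : ∀ m s, ∀ i i' : Fin m, i ≠ i' → ∀ t j t' j' : Fin (2 * s + 1),
      FC14.Accepts (m + 3)
        ((G m s).deleteEdges {s((i, Loc.X t j), (i', Loc.X t' j'))}) (τ m s) Acc) :
    ∀ ε : ℝ, 0 < ε → ∃ n₀ : ℕ, ∀ n : ℕ, n₀ ≤ n →
      ((1 - 1 / ((k : ℝ) - 4)) / 2 - ε) * (n : ℝ) ^ 2 ≤ FC14.F k n := by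
  obtain ⟨m, rfl⟩ : ∃ m, k = m + 4 := ⟨k - 4, by omega⟩
  have h1 := lower_aux m (by omega) (hsound m) (hcross m)
  have h2 : (((m + 4 : ℕ) : ℝ) - 4) = (m : ℝ) := by
    push_cast
    ring
  rw [h2]
  exact h1

theorem lower_exists_aux (k : ℕ) (hk : 6 ≤ k)
    (hsound : ∀ m s, ¬ FC14.Accepts (m + 3) (G m s) (τ m s) Acc)
    (hcross : ∀ m s, ∀ i i' : Fin m, i ≠ i' → ∀ t j t' j' : Fin (2 * s + 1),
      FC14.Accepts (m + 3)
        ((G m s).deleteEdges {s((i, Loc.X t j), (i', Loc.X t' j'))}) (τ m s) Acc) :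
    ∀ ε : ℝ, 0 < ε → ∃ n₀ : ℕ, ∀ n : ℕ, n₀ ≤ n →
      ∃ G : SimpleGraph (Fin n), G.chromaticNumber = (k : ℕ∞) ∧
        (∀ e ∈ G.edgeSet, (G.deleteEdges {e}).chromaticNumber < (k : ℕ∞)) ∧
        (∀ v : Fin n, (G.induce ({v}ᶜ : Set (Fin n))).chromaticNumber < (k : ℕ∞)) ∧
        ((1 - 1 / ((k : ℝ) - 4)) / 2 - ε) * (n : ℝ) ^ 2 ≤ (Nat.card G.edgeSet : ℝ) := by
  obtain ⟨q, rfl⟩ : ∃ q, k = q + 1 := ⟨k - 1, by omega⟩
  exact FC14.exists_of_F_bound q (by omega) _ (lower_aux' (q + 1) hk hsound hcross)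

end Pool.Agent.FKL
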